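import Pool.Agent.Helper81.LT.Defs
import Pool.Agent.Helper3.PF.Basic

/-!
Project LT (MP_b8862a_ag): reflections of frames, choice of the frame by a maximum, the Casimir constant of a dominant
weight.
-/

set_option linter.unusedSectionVars false
set_option linter.unusedVariables false

open Module PF TF PW AG

namespace LT

section
variable {E : Type*} [NormedAddCommGroup E] [InnerProductSpace ℝ E] {Φ X : Finset E} {n s : ℕ} {l y v : E}

/-- the reflection in `b` -/
noncomputable def rf (b : E) : E →ₗ[ℝ] E where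
  toFun x := x - co b x • b
  map_add' x y := by
    unfold co
    rw [inner_add_left, mul_add, add_div, add_smul]
    abel
  map_smul' r x := by
    unfold co
    rw [inner_smul_left]
    simp only [conj_trivial, RingHom.id_apply]
    rw [smul_sub, smul_smul]
    congr 2
    ring

theorem rf_apply (b x : E) : rf b x = x - co b x • b := rfl

theorem rf_rf {b : E} (hb : b ≠ 0) (x : E) : rf b (rf b x) = x := by
  have h1 : (inner ℝ b b : ℝ) ≠ 0 := fun h => hb (inner_self_eq_zero.1 h)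
  rw [rf_apply, rf_apply]
  have h2 : co b (x - co b x • b) = -co b x := by
    unfold co
    rw [inner_sub_left, inner_smul_left]
    simp only [conj_trivial]
    field_simp
    ring
  rw [h2, neg_smul]
  abel

theorem rf_eq_iff {b : E} (hb : b ≠ 0) {x y : E} : rf b x = y ↔ x = rf b y :=
  ⟨fun h => by rw [← h, rf_rf hb], fun h => by rw [h, rf_rf hb]⟩

theorem rf_mem (h : RS Φ) {b : E} (hb : b ∈ Φ) {a : E} : rf b a ∈ Φ ↔ a ∈ Φ := by
  have h1 : ∀ a, a ∈ Φ → rf b a ∈ Φ := fun a ha => h.refl b hb a ha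
  refine ⟨fun h2 => ?_, h1 a⟩
  have := h1 _ h2
  rwa [rf_rf (h.ne_zero b hb)] at this

theorem inner_rf (h : RS Φ) {b : E} (hb : b ∈ Φ) (x y : E) : (inner ℝ (rf b x) (rf b y) : ℝ) = inner ℝ x y :=
  h.inner_refl hb x y

/-- a frame for which the positive roots contain the standard ones -/
theorem exists_std (h : RS Φ) (hreg : ∀ a ∈ Φ, (inner ℝ v a : ℝ) ≠ 0) {k : ℕ} (T : (Fin k → E) → Prop)
    (hT : ∀ f, T f → ∀ b ∈ Φ, T fun i => rf b (f i)) (κ : ℝ) (hκ0 : κ ≠ 0) (hκ : ∀ f, T f → ∀ i, κ • f i ∈ Φ)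
    (c : Fin k → ℝ) {f₀ : Fin k → E} (h0 : T f₀) :
    ∃ f, T f ∧ ∀ a ∈ Φ, 0 < (inner ℝ (∑ i, c i • f i) a : ℝ) → 0 < (inner ℝ v a : ℝ) := by
  classical
  let S : Finset (Fin k → E) := (Fintype.piFinset fun _ : Fin k => Φ).filter fun g => T fun i => κ⁻¹ • g i
  have hmem : ∀ f, T f → (fun i => κ • f i) ∈ S := by
    intro f hf
    refine Finset.mem_filter.2 ⟨Fintype.mem_piFinset.2 fun i => hκ f hf i, ?_⟩
    have h1 : (fun i => κ⁻¹ • κ • f i) = f := by
      funext i
      rw [smul_smul, inv_mul_cancel₀ hκ0, one_smul]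
    rw [h1]
    exact hf
  obtain ⟨g, hg, hmax⟩ := Finset.exists_max_image S (fun g => (inner ℝ (∑ i, c i • κ⁻¹ • g i) v : ℝ)) ⟨_, hmem f₀ h0⟩
  have hTg := (Finset.mem_filter.1 hg).2
  refine ⟨fun i => κ⁻¹ • g i, hTg, fun a ha hpos => ?_⟩
  have h1 := hmax _ (hmem _ (hT _ hTg a ha))
  have h2 : (∑ i, c i • κ⁻¹ • κ • rf a (κ⁻¹ • g i)) = rf a (∑ i, c i • κ⁻¹ • g i) := by
    rw [map_sum]
    refine Finset.sum_congr rfl fun i _ => ?_
    rw [smul_smul κ⁻¹ κ, inv_mul_cancel₀ hκ0, one_smul, LinearMap.map_smul, LinearMap.map_smul,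
      LinearMap.map_smul]
  rw [h2, rf_apply, inner_sub_left, inner_smul_left] at h1
  simp only [conj_trivial] at h1
  have h3 : 0 ≤ co a (∑ i, c i • κ⁻¹ • g i) * (inner ℝ a v : ℝ) := by linarith
  have h4 : 0 < co a (∑ i, c i • κ⁻¹ • g i) := by
    unfold co
    have := h.inner_pos ha
    positivity
  have h5 : 0 ≤ (inner ℝ a v : ℝ) := by
    by_contra hneg
    push Not at hneg
    have := mul_neg_of_pos_of_neg h4 hneg
    linarith
  rw [real_inner_comm] at h5
  exact lt_of_le_of_ne h5 (Ne.symm (hreg a ha))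

theorem mem_Ps {a : E} : a ∈ Ps Φ v ↔ a ∈ Φ ∧ 0 < (inner ℝ v a : ℝ) := by
  classical
  unfold Ps
  exact Finset.mem_filter

/-- a sum over the roots of an even function is twice the sum over the positive roots -/
theorem sum_Ps (h : RS Φ) (hreg : ∀ a ∈ Φ, (inner ℝ v a : ℝ) ≠ 0) (G : E → ℝ) (hG : ∀ a, G (-a) = G a) :
    ∑ a ∈ Φ, G a = 2 * ∑ a ∈ Ps Φ v, G a := by
  classical
  have h1 : Φ.filter (fun a => ¬ 0 < (inner ℝ v a : ℝ)) = (Ps Φ v).image Neg.neg := by
    ext a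
    simp only [Finset.mem_filter, Finset.mem_image, mem_Ps]
    constructor
    · rintro ⟨ha, hn⟩
      refine ⟨-a, ⟨h.neg_mem ha, ?_⟩, neg_neg a⟩
      rw [inner_neg_right]
      have := hreg a ha
      rcases lt_trichotomy (0 : ℝ) (inner ℝ v a) with h2 | h2 | h2
      · exact absurd h2 hn
      · exact absurd h2.symm this
      · linarith
    · rintro ⟨b, ⟨hb, hb2⟩, rfl⟩
      refine ⟨h.neg_mem hb, ?_⟩
      rw [inner_neg_right]
      linarith
  rw [← Finset.sum_filter_add_sum_filter_not Φ (fun a => 0 < (inner ℝ v a : ℝ)), h1,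
    Finset.sum_image (fun x _ y _ hxy => neg_injective hxy)]
  simp only [hG]
  have h2 : Φ.filter (fun a => 0 < (inner ℝ v a : ℝ)) = Ps Φ v := by
    ext a
    rw [Finset.mem_filter, mem_Ps]
  rw [h2]
  ring

theorem card_Ps (h : RS Φ) (hreg : ∀ a ∈ Φ, (inner ℝ v a : ℝ) ≠ 0) : (Φ.card : ℝ) = 2 * (Ps Φ v).card := by
  have := sum_Ps h hreg (fun _ => 1) (fun _ => rfl)
  simpa using this

/-- the Casimir constant of a dominant weight -/
theorem cas_dom (h : RS Φ) (hreg : ∀ a ∈ Φ, (inner ℝ v a : ℝ) ≠ 0) (hv : v = ∑ a ∈ Ps Φ v, a)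
    (hl : ∀ a ∈ Ps Φ v, 0 ≤ (inner ℝ l a : ℝ)) : cas Φ l = inner ℝ l l + inner ℝ l v := by
  unfold cas
  rw [sum_Ps h hreg (fun a => |(inner ℝ l a : ℝ)|) (fun a => by rw [inner_neg_right, abs_neg])]
  have h1 : ∑ a ∈ Ps Φ v, |(inner ℝ l a : ℝ)| = inner ℝ l v := by
    conv_rhs => rw [hv]
    rw [inner_sum]
    exact Finset.sum_congr rfl fun a ha => abs_of_nonneg (hl a ha)
  rw [h1]
  ring

/-! Coordinates. -/

/-- the vector with the integral coordinates `z` -/
noncomputable def vc {k : ℕ} (e : Fin k → E) (z : Fin k → ℤ) : E := ∑ i, (z i : ℝ) • e i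

theorem vc_neg {k : ℕ} (e : Fin k → E) (z : Fin k → ℤ) : vc e (-z) = -vc e z := by
  unfold vc
  rw [← Finset.sum_neg_distrib]
  refine Finset.sum_congr rfl fun i _ => ?_
  rw [Pi.neg_apply, Int.cast_neg, neg_smul]

theorem vc_add {k : ℕ} (e : Fin k → E) (z w : Fin k → ℤ) : vc e (z + w) = vc e z + vc e w := by
  unfold vc
  rw [← Finset.sum_add_distrib]
  refine Finset.sum_congr rfl fun i _ => ?_
  rw [Pi.add_apply, Int.cast_add, add_smul]

theorem vc_sum {k : ℕ} {ι : Type*} (e : Fin k → E) (S : Finset ι) (z : ι → Fin k → ℤ) :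
    ∑ i ∈ S, vc e (z i) = vc e (∑ i ∈ S, z i) := by
  classical
  induction S using Finset.induction_on with
  | empty => simp [vc]
  | insert a S ha ih => rw [Finset.sum_insert ha, Finset.sum_insert ha, ih, vc_add]

theorem inner_vc {k : ℕ} (e : Fin k → E) (z : Fin k → ℤ) (x : E) : (inner ℝ x (vc e z) : ℝ) = ∑ i, (z i : ℝ) * inner ℝ x (e i) := by
  unfold vc
  rw [inner_sum]
  refine Finset.sum_congr rfl fun i _ => ?_
  rw [inner_smul_right]

/-- unit coordinates -/
def dl {k : ℕ} (i : Fin k) : Fin k → ℤ := fun j => if j = i then 1 else 0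

theorem vc_dl {k : ℕ} (e : Fin k → E) (i : Fin k) : vc e (dl i) = e i := by
  unfold vc dl
  simp

end

end LT
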