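import Pool.Agent.Helper98.LT.Frame
import Pool.Agent.Helper98.AG.Small
import Pool.Agent.Helper3.PF.Zero

/-!
Project LT (MP_b8862a_ag), type `E_8`: no grading.
-/

set_option linter.unusedSectionVars false
set_option linter.unusedVariables false

open Module PF TF PW AG

namespace LT

section
variable {E : Type*} [NormedAddCommGroup E] [InnerProductSpace ℝ E] {Φ X : Finset E} {n s : ℕ} {l y v : E}

/-- no nonzero vector has the levels `-1`, `0`, `1` on the roots of `E_8` -/
theorem levels_E8 (Y : Fin 9 → ℝ) (h0 : ∑ i, Y i = 0) (h1 : ∀ i j, i ≠ j → Y i - Y j = -1 ∨ Y i - Y j = 0 ∨ Y i - Y j = 1)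
    (h2 : ∀ S : Finset (Fin 9), S.card = 3 → ∑ i ∈ S, Y i = -1 ∨ ∑ i ∈ S, Y i = 0 ∨ ∑ i ∈ S, Y i = 1) : ∀ i, Y i = 0 := by
  classical
  by_cases heq : ∀ i j, Y i = Y j
  · intro i
    have h3 : ∑ j, Y j = 9 * Y i := by
      rw [Finset.sum_congr rfl (fun j _ => heq j i)]
      simp
    rw [h0] at h3
    linarith
  exfalso
  push Not at heq
  obtain ⟨p, q, hpq⟩ := heq
  obtain ⟨i0, j0, hij⟩ : ∃ i j, Y i = Y j + 1 := by
    have hne : p ≠ q := fun h => hpq (by rw [h])
    rcases h1 p q hne with h | h | h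
    · exact ⟨q, p, by linarith⟩
    · exact absurd (by linarith) hpq
    · exact ⟨p, q, by linarith⟩
  obtain ⟨c, hc⟩ : ∃ c, Y j0 = c := ⟨_, rfl⟩
  have hval : ∀ i, Y i = c ∨ Y i = c + 1 := by
    intro i
    by_cases e1 : i = j0
    · left; rw [e1, hc]
    by_cases e2 : i = i0
    · right; rw [e2, hij, hc]
    rcases h1 i j0 e1 with h | h | h
    · rcases h1 i i0 e2 with h' | h' | h' <;> exfalso <;> linarith
    · left; linarith
    · right; linarith
  set H : Finset (Fin 9) := Finset.univ.filter fun i => Y i = c + 1 with hH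
  set Lw : Finset (Fin 9) := Finset.univ.filter fun i => ¬ Y i = c + 1 with hLw
  have hcard : H.card + Lw.card = 9 := by
    rw [hH, hLw, Finset.card_filter_add_card_filter_not, Finset.card_univ, Fintype.card_fin]
  have hHs : ∀ i ∈ H, Y i = c + 1 := fun i hi => (Finset.mem_filter.1 hi).2
  have hLs : ∀ i ∈ Lw, Y i = c := fun i hi => (hval i).resolve_right (Finset.mem_filter.1 hi).2
  have hsum : 9 * c + H.card = 0 := by
    have h3 : ∑ i, Y i = ∑ i ∈ H, Y i + ∑ i ∈ Lw, Y i := by
      rw [hH, hLw]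
      exact (Finset.sum_filter_add_sum_filter_not _ _ _).symm
    rw [Finset.sum_congr rfl hHs, Finset.sum_congr rfl hLs, Finset.sum_const, Finset.sum_const, nsmul_eq_mul,
      nsmul_eq_mul, h0] at h3
    have h4 : (H.card : ℝ) + Lw.card = 9 := by exact_mod_cast hcard
    linear_combination -h3 - c * h4
  have hH1 : 1 ≤ H.card := Finset.card_pos.2 ⟨i0, Finset.mem_filter.2 ⟨Finset.mem_univ _, by rw [hij, hc]⟩⟩
  -- a triple inside one of the two sets
  have hc3 : 3 * c = -(H.card : ℝ) / 3 := by linarith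
  have hL3 : 3 ≤ Lw.card → H.card = 3 := by
    intro h3
    obtain ⟨S, hS, hS3⟩ := Finset.exists_subset_card_eq h3
    have h4 := h2 S hS3
    rw [Finset.sum_congr rfl (fun i hi => hLs i (hS hi)), Finset.sum_const, hS3, nsmul_eq_mul] at h4
    push_cast at h4
    rw [hc3] at h4
    rcases h4 with h4 | h4 | h4
    · have h5 : (H.card : ℝ) = ((3 : ℕ) : ℝ) := by push_cast; linarith
      exact_mod_cast h5
    · exfalso
      have h5 : (H.card : ℝ) = ((0 : ℕ) : ℝ) := by push_cast; linarith
      have h6 : H.card = 0 := by exact_mod_cast h5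
      omega
    · exfalso
      have h5 : (0 : ℝ) ≤ H.card := by positivity
      linarith
  have hH3 : 3 ≤ H.card → H.card = 6 ∨ H.card = 9 := by
    intro h3
    obtain ⟨S, hS, hS3⟩ := Finset.exists_subset_card_eq h3
    have h4 := h2 S hS3
    rw [Finset.sum_congr rfl (fun i hi => hHs i (hS hi)), Finset.sum_const, hS3, nsmul_eq_mul] at h4
    push_cast at h4
    have h5 : 3 * (c + 1) = 3 - (H.card : ℝ) / 3 := by linarith
    rw [h5] at h4
    rcases h4 with h4 | h4 | h4
    · exfalso
      have h5 : (H.card : ℝ) = ((12 : ℕ) : ℝ) := by push_cast; linarith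
      have h6 : H.card = 12 := by exact_mod_cast h5
      omega
    · right
      have h5 : (H.card : ℝ) = ((9 : ℕ) : ℝ) := by push_cast; linarith
      exact_mod_cast h5
    · left
      have h5 : (H.card : ℝ) = ((6 : ℕ) : ℝ) := by push_cast; linarith
      exact_mod_cast h5
  have hLpos : 1 ≤ Lw.card := Finset.card_pos.2 ⟨j0, Finset.mem_filter.2 ⟨Finset.mem_univ _, by rw [hc]; linarith⟩⟩
  by_cases h3 : 3 ≤ Lw.card
  · have h4 := hL3 h3
    have h5 := hH3 (by omega)
    omega
  · have h5 := hH3 (by omega)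
    omega

/-- BLOCK E8 -/
theorem typeE8 {u : Fin 9 → E} (h : Dt Φ X n s l y v) (F : TyE8 Φ u) : False := by
  classical
  have hRS := h.wd.rs
  have hsum0 : ∑ i, u i = 0 := by
    have h1 : (inner ℝ (∑ i, u i) (∑ i, u i) : ℝ) = 0 := by
      simp only [sum_inner, inner_sum, F.gram]
      simp [Finset.sum_sub_distrib]
    exact inner_self_eq_zero.1 h1
  have hnorm : ∀ a ∈ Φ, (inner ℝ a a : ℝ) = 2 := by
    intro a ha
    have hS : ∀ S : Finset (Fin 9), S.card = 3 → (inner ℝ (∑ i ∈ S, u i) (∑ i ∈ S, u i) : ℝ) = 2 := by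
      intro S hS
      simp only [sum_inner, inner_sum, F.gram]
      simp only [Finset.sum_sub_distrib, Finset.sum_const, hS, nsmul_eq_mul]
      have h1 : ∑ i ∈ S, ∑ j ∈ S, (if j = i then (1 : ℝ) else 0) = 3 := by
        have h2 : ∀ i ∈ S, ∑ j ∈ S, (if j = i then (1 : ℝ) else 0) = 1 := by
          intro i hi
          rw [Finset.sum_ite_eq']
          simp [hi]
        rw [Finset.sum_congr rfl h2]
        simp [hS]
      rw [h1]
      norm_num
    rcases (F.mem a).1 ha with ⟨i, j, hij, rfl⟩ | ⟨S, hS3, rfl | rfl⟩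
    · rw [inner_sub_left, inner_sub_right, inner_sub_right, F.gram, F.gram, F.gram, F.gram, if_pos rfl, if_pos rfl,
        if_neg hij, if_neg hij.symm]
      norm_num
    · exact hS S hS3
    · rw [inner_neg_neg]
      exact hS S hS3
  have hN : NRS Φ := { hRS with
    two_le := fun a ha => by rw [hnorm a ha]
    ex_two := by
      obtain ⟨a, ha⟩ := hRS.nonempty
      exact ⟨a, ha, hnorm a ha⟩ }
  have hPsi : ∀ a ∈ Φ, a ∈ Psi Φ := fun a ha => mem_Psi.2 ⟨ha, hnorm a ha⟩
  -- special roots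
  have hdiff : ∀ i j, i ≠ j → u i - u j ∈ Φ := fun i j hij => (F.mem _).2 (Or.inl ⟨i, j, hij, rfl⟩)
  have htri : ∀ S : Finset (Fin 9), S.card = 3 → ∑ i ∈ S, u i ∈ Φ := fun S hS => (F.mem _).2 (Or.inr ⟨S, hS, Or.inl rfl⟩)
  -- expansion
  have hexp0 : ∀ x ∈ Submodule.span ℝ (Set.range u), x = ∑ i, (inner ℝ x (u i) : ℝ) • u i := by
    intro x hx
    induction hx using Submodule.span_induction with
    | mem x hx =>
      obtain ⟨j, rfl⟩ := hx
      simp only [F.gram, sub_smul, Finset.sum_sub_distrib, ite_smul, one_smul, zero_smul, Finset.sum_ite_eq,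
        Finset.mem_univ, if_true, ← Finset.smul_sum, hsum0, smul_zero, sub_zero]
    | zero => simp
    | add x z _ _ h1 h2 =>
      simp only [inner_add_left, add_smul, Finset.sum_add_distrib]
      rw [← h1, ← h2]
    | smul c x _ h1 =>
      simp only [inner_smul_left, conj_trivial, mul_smul, ← Finset.smul_sum]
      rw [← h1]
  have hexp : ∀ x ∈ Submodule.span ℝ (Φ : Set E), x = ∑ i, (inner ℝ x (u i) : ℝ) • u i := by
    intro x hx
    refine hexp0 x (Submodule.span_le.2 ?_ hx)
    intro a ha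
    have hu : ∀ i, u i ∈ Submodule.span ℝ (Set.range u) := fun i => Submodule.subset_span ⟨i, rfl⟩
    rcases (F.mem a).1 ha with ⟨i, j, hij, rfl⟩ | ⟨S, hS3, rfl | rfl⟩
    · exact Submodule.sub_mem _ (hu i) (hu j)
    · exact Submodule.sum_mem _ fun i _ => hu i
    · exact Submodule.neg_mem _ (Submodule.sum_mem _ fun i _ => hu i)
  have hspX : ∀ x ∈ X, x ∈ Submodule.span ℝ (Φ : Set E) := by
    intro x hx
    have h1 := h.wd.sat.coset x hx (-x) (h.wd.sat.neg _ hx)
    have h2 : x - -x ∈ Submodule.span ℝ (Φ : Set E) := by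
      refine (AddSubgroup.closure_le (K := (Submodule.span ℝ (Φ : Set E)).toAddSubgroup)).2 ?_ h1
      intro a ha
      exact Submodule.subset_span ha
    have h3 : x = (2 : ℝ)⁻¹ • (x - -x) := by
      rw [sub_neg_eq_add, ← two_smul ℝ x, smul_smul, inv_mul_cancel₀ two_ne_zero, one_smul]
    rw [h3]
    exact Submodule.smul_mem _ _ h2
  -- the weights lie in the root lattice
  have h012 : ({0, 1, 2} : Finset (Fin 9)).card = 3 := by decide
  have hs012 : ∀ f : Fin 9 → E, ∑ i ∈ ({0, 1, 2} : Finset (Fin 9)), f i = f 0 + f 1 + f 2 := by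
    intro f
    rw [Finset.sum_insert (by decide), Finset.sum_insert (by decide), Finset.sum_singleton, add_assoc]
  have hlat : ∀ x ∈ X, x ∈ AddSubgroup.closure (Φ : Set E) := by
    intro x hx
    have hint : ∀ a ∈ Φ, ∃ k : ℤ, (inner ℝ x a : ℝ) = k := by
      intro a ha
      obtain ⟨k, hk⟩ := h.wd.sat.int a ha x hx
      refine ⟨k, ?_⟩
      unfold co at hk
      rw [hnorm a ha] at hk
      linarith
    have hd : ∀ i, ∃ k : ℤ, (inner ℝ x (u i) : ℝ) = inner ℝ x (u 0) + k := by
      intro i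
      by_cases hi : i = 0
      · exact ⟨0, by rw [hi]; simp⟩
      · obtain ⟨k, hk⟩ := hint _ (hdiff i 0 hi)
        refine ⟨k, ?_⟩
        rw [inner_sub_right] at hk
        linarith
    choose k hk using hd
    obtain ⟨t, ht⟩ := hint _ (htri _ h012)
    rw [hs012 u, inner_add_right, inner_add_right, hk 1, hk 2] at ht
    have hx0 : ∑ i, (inner ℝ x (u i) : ℝ) = 0 := by
      rw [← inner_sum, hsum0, inner_zero_right]
    have hk0 : 9 * (inner ℝ x (u 0) : ℝ) + ((∑ i, k i : ℤ) : ℝ) = 0 := by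
      rw [← hx0]
      rw [Finset.sum_congr rfl (fun i _ => hk i), Finset.sum_add_distrib, Finset.sum_const, Finset.card_univ,
        Fintype.card_fin, nsmul_eq_mul]
      push_cast
      ring
    have h3 : 3 * (inner ℝ x (u 0) : ℝ) = ((t - k 1 - k 2 : ℤ) : ℝ) := by
      push_cast
      linarith
    have hksum : ∑ i, k i = -3 * (t - k 1 - k 2) := by
      have h4 : ((∑ i, k i : ℤ) : ℝ) = ((-3 * (t - k 1 - k 2) : ℤ) : ℝ) := by
        rw [Int.cast_mul, ← h3]
        push_cast at hk0 ⊢
        linarith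
      exact_mod_cast h4
    have hxe : x = ∑ i, (k i : ℝ) • u i := by
      conv_lhs => rw [hexp x (hspX x hx)]
      rw [Finset.sum_congr rfl (fun i _ => by rw [hk i, add_smul]), Finset.sum_add_distrib, ← Finset.smul_sum, hsum0,
        smul_zero, zero_add]
    have hxe2 : x = ∑ i, (k i) • (u i - u 0) + (∑ i, k i) • u 0 := by
      rw [hxe]
      simp only [smul_sub, Finset.sum_sub_distrib, ← Finset.sum_smul, sub_add_cancel]
      exact Finset.sum_congr rfl fun i _ => by rw [Int.cast_smul_eq_zsmul]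
    have h3u : (3 : ℤ) • u 0 ∈ AddSubgroup.closure (Φ : Set E) := by
      have h5 : (3 : ℤ) • u 0 = (∑ i ∈ ({0, 1, 2} : Finset (Fin 9)), u i) + (u 0 - u 1) + (u 0 - u 2) := by
        rw [hs012]
        module
      rw [h5]
      exact AddSubgroup.add_mem _ (AddSubgroup.add_mem _ (AddSubgroup.subset_closure (htri _ h012))
        (AddSubgroup.subset_closure (hdiff 0 1 (by decide)))) (AddSubgroup.subset_closure (hdiff 0 2 (by decide)))
    rw [hxe2, hksum]
    refine AddSubgroup.add_mem _ (AddSubgroup.sum_mem _ fun i _ => ?_) ?_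
    · refine AddSubgroup.zsmul_mem _ ?_ _
      by_cases hi : i = 0
      · rw [hi, sub_self]
        exact AddSubgroup.zero_mem _
      · exact AddSubgroup.subset_closure (hdiff i 0 hi)
    · have h6 : (-3 * (t - k 1 - k 2)) • u 0 = (-(t - k 1 - k 2)) • ((3 : ℤ) • u 0) := by
        rw [smul_smul]
        congr 1
        ring
      rw [h6]
      exact AddSubgroup.zsmul_mem _ h3u _
  -- zero is a weight
  have h0X : (0 : E) ∈ X := by
    obtain ⟨x, hx, hmin⟩ := Finset.exists_min_image X (fun x => (inner ℝ x x : ℝ)) h.wd.sat.nonempty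
    by_cases hx0 : x = 0
    · rw [← hx0]; exact hx
    exfalso
    obtain ⟨c, hc, hc2⟩ := hN.exists_two_le (hlat x hx) hx0
    have h1 := h.wd.sat.str c (mem_Psi.1 hc).1 x hx 1 (by
      rw [co_Psi hc]
      push_cast
      linarith)
    rw [Nat.cast_one, one_smul] at h1
    have h2 := hmin _ h1
    rw [inner_sub_left x c, inner_sub_right, inner_sub_right, real_inner_comm x c, (mem_Psi.1 hc).2] at h2
    linarith
  have hsub := h.wd.sat.psi_sub hN h0X ⟨l, h.wd.l_mem, h.wd.l_ne⟩
  have hlev : ∀ a ∈ Φ, (inner ℝ a y : ℝ) = -1 ∨ (inner ℝ a y : ℝ) = 0 ∨ (inner ℝ a y : ℝ) = 1 :=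
    fun a ha => h.lev a (hsub (hPsi a ha))
  have hY := levels_E8 (fun i => (inner ℝ (u i) y : ℝ)) (by rw [← sum_inner, hsum0, inner_zero_left]) (by
      intro i j hij
      have := hlev _ (hdiff i j hij)
      rwa [inner_sub_left] at this) (by
      intro S hS
      have := hlev _ (htri S hS)
      rwa [sum_inner] at this)
  obtain ⟨b, hb, hby⟩ := h.toD3.exists_root
  apply hby
  have h1 := hexp b (Submodule.subset_span hb)
  rw [h1, sum_inner]
  refine Finset.sum_eq_zero fun i _ => ?_
  rw [inner_smul_left, hY i, mul_zero]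

end

end LT
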