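import Pool.Agent.Helper98.LT.Frame

/-!
Project LT (MP_b8862a_ag), type `F_4`.
-/

set_option linter.unusedSectionVars false
set_option linter.unusedVariables false

open Module PF TF PW AG

namespace LT

section
variable {E : Type*} [NormedAddCommGroup E] [InnerProductSpace ℝ E] {Φ X : Finset E} {n s : ℕ} {l y v : E}

/-- the positive roots of `F_4` -/
def pF : Fin 24 → Fin 4 → ℤ :=
  ![![1, -1, 0, 0], ![1, 0, -1, 0], ![1, 0, 0, -1], ![0, 1, -1, 0], ![0, 1, 0, -1], ![0, 0, 1, -1],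
    ![1, 1, 0, 0], ![1, 0, 1, 0], ![1, 0, 0, 1], ![0, 1, 1, 0], ![0, 1, 0, 1], ![0, 0, 1, 1],
    ![2, 0, 0, 0], ![0, 2, 0, 0], ![0, 0, 2, 0], ![0, 0, 0, 2],
    ![1, 1, 1, 1], ![1, 1, 1, -1], ![1, 1, -1, 1], ![1, 1, -1, -1],
    ![1, -1, 1, 1], ![1, -1, 1, -1], ![1, -1, -1, 1], ![1, -1, -1, -1]]

/-- signs -/
def sgB (t : Fin 4 → Bool) : Fin 4 → ℤ := fun i => if t i then 1 else -1

theorem pF_inj : Function.Injective pF := by decide

theorem pF_sub : ∀ i j : Fin 4, i ≠ j → ∃ q, dl i - dl j = pF q ∨ dl i - dl j = -pF q := by decide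

theorem pF_add : ∀ i j : Fin 4, i ≠ j → ∃ q, dl i + dl j = pF q ∨ dl i + dl j = -pF q := by decide

theorem pF_two : ∀ i : Fin 4, ∃ q, dl i + dl i = pF q ∨ dl i + dl i = -pF q := by decide

theorem pF_sg : ∀ t : Fin 4 → Bool, ∃ q, sgB t = pF q ∨ sgB t = -pF q := by decide

theorem pF_cases : ∀ q, (∃ i j : Fin 4, i ≠ j ∧ (pF q = dl i + dl j ∨ pF q = dl i - dl j)) ∨
    (∃ i : Fin 4, pF q = dl i + dl i) ∨ ∃ t : Fin 4 → Bool, pF q = sgB t := by decide

theorem pF_sum : ∑ q, pF q = ![16, 6, 4, 2] := by decide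

theorem pF_prod : ∏ q, (∑ i, pF q i * (![18, 8, 4, 2] : Fin 4 → ℤ) i) =
    26 * ∏ q, (∑ i, pF q i * (![16, 6, 4, 2] : Fin 4 → ℤ) i) := by decide +kernel

theorem pF_pos : ∀ q, 0 < ∑ i, pF q i * (![16, 6, 4, 2] : Fin 4 → ℤ) i := by decide

theorem TyF4.rf {e : Fin 4 → E} (h : RS Φ) (F : TyF4 Φ e) {b : E} (hb : b ∈ Φ) : TyF4 Φ fun i => LT.rf b (e i) where
  on := by
    rw [orthonormal_iff_ite]
    intro i j
    rw [inner_rf h hb]
    exact orthonormal_iff_ite.1 F.on i j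
  mem := by
    intro a
    have hb0 := h.ne_zero b hb
    rw [← rf_mem h hb, F.mem]
    have e1 : ∀ x : E, LT.rf b a = x ↔ a = LT.rf b x := fun x => rf_eq_iff hb0
    simp only [e1, map_add, map_sub, map_neg, LinearMap.map_smul, map_sum]

theorem TyF4.iff {e : Fin 4 → E} (F : TyF4 Φ e) (a : E) : a ∈ Φ ↔ ∃ q, a = vc e (pF q) ∨ a = -vc e (pF q) := by
  have hneg : ∀ z : Fin 4 → ℤ, (∃ q, z = pF q ∨ z = -pF q) → ∀ a, (a = vc e z ∨ a = -vc e z) →
      ∃ q, a = vc e (pF q) ∨ a = -vc e (pF q) := by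
    rintro z ⟨q, rfl | rfl⟩ a (rfl | rfl)
    · exact ⟨q, Or.inl rfl⟩
    · exact ⟨q, Or.inr rfl⟩
    · exact ⟨q, Or.inr (vc_neg _ _)⟩
    · exact ⟨q, Or.inl (by rw [vc_neg, neg_neg])⟩
  have hsub : ∀ i j : Fin 4, vc e (dl i - dl j) = e i - e j := by
    intro i j
    rw [sub_eq_add_neg, vc_add, vc_neg, vc_dl, vc_dl, sub_eq_add_neg]
  have hadd : ∀ i j : Fin 4, vc e (dl i + dl j) = e i + e j := by
    intro i j
    rw [vc_add, vc_dl, vc_dl]
  have hsg : ∀ t : Fin 4 → Bool, vc e (sgB t) = ∑ i, (if t i then (1 : ℝ) else -1) • e i := by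
    intro t
    unfold vc sgB
    refine Finset.sum_congr rfl fun i _ => ?_
    split_ifs <;> simp
  rw [F.mem]
  constructor
  · rintro (⟨i, j, hij, rfl | rfl | rfl⟩ | ⟨i, rfl | rfl⟩ | ⟨t, ht, rfl⟩)
    · exact hneg _ (pF_add i j hij) _ (Or.inl (hadd i j).symm)
    · exact hneg _ (pF_sub i j hij) _ (Or.inl (hsub i j).symm)
    · exact hneg _ (pF_add i j hij) _ (Or.inr (by rw [hadd]))
    · exact hneg _ (pF_two i) _ (Or.inl (by rw [hadd, two_smul]))
    · exact hneg _ (pF_two i) _ (Or.inr (by rw [hadd, two_smul]))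
    · classical
      refine hneg _ (pF_sg fun i => decide (t i = 1)) _ (Or.inl ?_)
      rw [hsg]
      refine Finset.sum_congr rfl fun i _ => ?_
      rcases ht i with h | h
      · simp [h]
      · have : ¬ ((-1 : ℝ) = 1) := by norm_num
        simp [h, this]
  · rintro ⟨q, hq⟩
    rcases pF_cases q with ⟨i, j, hij, h | h⟩ | ⟨i, h⟩ | ⟨t, h⟩
    · left
      rw [h, hadd] at hq
      rcases hq with hq | hq
      · exact ⟨i, j, hij, Or.inl hq⟩
      · exact ⟨i, j, hij, Or.inr (Or.inr hq)⟩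
    · left
      rw [h, hsub] at hq
      rcases hq with hq | hq
      · exact ⟨i, j, hij, Or.inr (Or.inl hq)⟩
      · exact ⟨j, i, hij.symm, Or.inr (Or.inl (by rw [hq, neg_sub]))⟩
    · right; left
      rw [h, hadd, ← two_smul ℝ (e i)] at hq
      exact ⟨i, hq⟩
    · right; right
      rw [h, hsg] at hq
      rcases hq with hq | hq
      · exact ⟨fun i => if t i then 1 else -1, fun i => by by_cases h : t i <;> simp [h], hq⟩
      · refine ⟨fun i => if t i then -1 else 1, fun i => by by_cases h : t i <;> simp [h], ?_⟩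
        rw [hq, ← Finset.sum_neg_distrib]
        refine Finset.sum_congr rfl fun i _ => ?_
        by_cases h : t i <;> simp [h]

/-- BLOCK F4 -/
theorem typeF4 {e : Fin 4 → E} (h : Dt Φ X n s l y v) (F : TyF4 Φ e) : s = 6 ∧ n = 26 := by
  classical
  have hRS := h.wd.rs
  obtain ⟨f, F, hf⟩ := exists_std hRS h.wd.reg (TyF4 Φ) (fun f hf b hb => hf.rf hRS hb) 2 two_ne_zero
    (fun f hf i => (hf.mem _).2 (Or.inr (Or.inl ⟨i, Or.inl rfl⟩))) ![8, 3, 2, 1] F
  have hon : ∀ i j, (inner ℝ (f i) (f j) : ℝ) = if i = j then 1 else 0 := orthonormal_iff_ite.1 F.on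
  -- the positive roots
  have hpos : ∀ q, vc f (pF q) ∈ Ps Φ v := by
    intro q
    have h1 : vc f (pF q) ∈ Φ := (F.iff _).2 ⟨q, Or.inl rfl⟩
    refine mem_Ps.2 ⟨h1, hf _ h1 ?_⟩
    rw [inner_vc]
    have h2 : ∀ i, (inner ℝ (∑ j, (![8, 3, 2, 1] : Fin 4 → ℝ) j • f j) (f i) : ℝ) = (![8, 3, 2, 1] : Fin 4 → ℝ) i := by
      intro i
      rw [sum_inner, Finset.sum_eq_single i]
      · rw [inner_smul_left, hon, if_pos rfl, mul_one]
        rfl
      · intro j _ hj
        rw [inner_smul_left, hon, if_neg hj, mul_zero]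
      · intro h
        exact absurd (Finset.mem_univ i) h
    simp only [h2]
    have h3 : ∀ q, 0 < ∑ i, pF q i * (![8, 3, 2, 1] : Fin 4 → ℤ) i := by decide
    have h4 : (∑ i, (pF q i : ℝ) * (![8, 3, 2, 1] : Fin 4 → ℝ) i) = ((∑ i, pF q i * (![8, 3, 2, 1] : Fin 4 → ℤ) i : ℤ) : ℝ) := by
      push_cast
      refine Finset.sum_congr rfl fun i _ => ?_
      fin_cases i <;> simp
    rw [h4]
    exact_mod_cast h3 q
  have hvcinj : Function.Injective fun q => vc f (pF q) := by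
    intro q q' hqq
    apply pF_inj
    funext i
    have h1 : ∀ z : Fin 4 → ℤ, (inner ℝ (f i) (vc f z) : ℝ) = z i := by
      intro z
      rw [inner_vc, Finset.sum_eq_single i]
      · rw [hon, if_pos rfl, mul_one]
      · intro j _ hj
        rw [hon, if_neg (Ne.symm hj), mul_zero]
      · intro h
        exact absurd (Finset.mem_univ i) h
    have h2 := h1 (pF q)
    have h3 := h1 (pF q')
    simp only at hqq
    rw [hqq, h3] at h2
    exact_mod_cast h2.symm
  have hPs : Ps Φ v = Finset.univ.image fun q => vc f (pF q) := by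
    ext a
    rw [Finset.mem_image]
    constructor
    · intro ha
      obtain ⟨ha1, ha2⟩ := mem_Ps.1 ha
      obtain ⟨q, rfl | rfl⟩ := (F.iff a).1 ha1
      · exact ⟨q, Finset.mem_univ _, rfl⟩
      · exfalso
        have := (mem_Ps.1 (hpos q)).2
        rw [inner_neg_right] at ha2
        linarith
    · rintro ⟨q, _, rfl⟩
      exact hpos q
  have hsumPs : ∀ G : E → ℝ, ∑ a ∈ Ps Φ v, G a = ∑ q, G (vc f (pF q)) := by
    intro G
    rw [hPs, Finset.sum_image (fun x _ y _ hxy => hvcinj hxy)]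
  have hprodPs : ∀ G : E → ℝ, ∏ a ∈ Ps Φ v, G a = ∏ q, G (vc f (pF q)) := by
    intro G
    rw [hPs, Finset.prod_image (fun x _ y _ hxy => hvcinj hxy)]
  -- the vector `v`
  have hv : v = vc f ![16, 6, 4, 2] := by
    rw [h.wd.v_eq, hPs, Finset.sum_image (fun x _ y _ hxy => hvcinj hxy), vc_sum, pF_sum]
  have hvi : ∀ i, (inner ℝ v (f i) : ℝ) = ((![16, 6, 4, 2] : Fin 4 → ℤ) i : ℝ) := by
    intro i
    rw [hv, real_inner_comm, inner_vc, Finset.sum_eq_single i]
    · rw [hon, if_pos rfl, mul_one]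
    · intro j _ hj
      rw [hon, if_neg (Ne.symm hj), mul_zero]
    · intro h
      exact absurd (Finset.mem_univ i) h
  -- coordinates
  have hspan : Submodule.span ℝ (Φ : Set E) = Submodule.span ℝ (Set.range f) := by
    apply le_antisymm
    · rw [Submodule.span_le]
      intro a ha
      obtain ⟨q, hq⟩ := (F.iff a).1 ha
      have h1 : vc f (pF q) ∈ Submodule.span ℝ (Set.range f) :=
        Submodule.sum_mem _ fun i _ => Submodule.smul_mem _ _ (Submodule.subset_span ⟨i, rfl⟩)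
      rcases hq with rfl | rfl
      · exact h1
      · exact Submodule.neg_mem _ h1
    · rw [Submodule.span_le]
      rintro _ ⟨i, rfl⟩
      have h1 : (2 : ℝ) • f i ∈ Φ := (F.mem _).2 (Or.inr (Or.inl ⟨i, Or.inl rfl⟩))
      have h2 : f i = (2 : ℝ)⁻¹ • (2 : ℝ) • f i := by
        rw [smul_smul, inv_mul_cancel₀ two_ne_zero, one_smul]
      rw [h2]
      exact Submodule.smul_mem _ _ (Submodule.subset_span h1)
  have hexp : ∀ x ∈ Submodule.span ℝ (Φ : Set E), ∀ w : E, (inner ℝ x w : ℝ) = ∑ i, inner ℝ x (f i) * inner ℝ w (f i) := by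
    intro x hx w
    rw [hspan] at hx
    induction hx using Submodule.span_induction with
    | mem x hx =>
      obtain ⟨j, rfl⟩ := hx
      rw [Finset.sum_eq_single j]
      · rw [hon, if_pos rfl, one_mul, real_inner_comm]
      · intro i _ hi
        rw [hon, if_neg (Ne.symm hi), zero_mul]
      · intro h
        exact absurd (Finset.mem_univ j) h
    | zero => simp
    | add x z _ _ h1 h2 =>
      rw [inner_add_left, h1, h2, ← Finset.sum_add_distrib]
      refine Finset.sum_congr rfl fun i _ => ?_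
      rw [inner_add_left]
      ring
    | smul c x _ h1 =>
      rw [inner_smul_left, h1, Finset.mul_sum]
      refine Finset.sum_congr rfl fun i _ => ?_
      rw [inner_smul_left]
      simp only [conj_trivial]
      ring
  have hrank : finrank ℝ (Submodule.span ℝ (Φ : Set E)) = 4 := by
    rw [hspan, finrank_span_eq_card F.on.linearIndependent, Fintype.card_fin]
  have hcard : (Φ.card : ℝ) = 48 := by
    rw [card_Ps hRS h.wd.reg, hPs, Finset.card_image_of_injective _ hvcinj, Finset.card_univ, Fintype.card_fin]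
    norm_num
  -- coordinates of `l` and `y`
  have hlsp : l ∈ Submodule.span ℝ (Φ : Set E) := by
    have h1 := h.wd.sat.coset l h.wd.l_mem (-l) (h.wd.sat.neg _ h.wd.l_mem)
    have h2 : l - -l ∈ Submodule.span ℝ (Φ : Set E) := by
      refine (AddSubgroup.closure_le (K := (Submodule.span ℝ (Φ : Set E)).toAddSubgroup)).2 ?_ h1
      intro a ha
      exact Submodule.subset_span ha
    have h3 : l = (2 : ℝ)⁻¹ • (l - -l) := by
      rw [sub_neg_eq_add, ← two_smul ℝ l, smul_smul, inv_mul_cancel₀ two_ne_zero, one_smul]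
    rw [h3]
    exact Submodule.smul_mem _ _ h2
  obtain ⟨L, hL⟩ : ∃ L : Fin 4 → ℝ, ∀ i, (inner ℝ l (f i) : ℝ) = L i := ⟨_, fun i => rfl⟩
  obtain ⟨Y, hY⟩ : ∃ Y : Fin 4 → ℝ, ∀ i, (inner ℝ y (f i) : ℝ) = Y i := ⟨_, fun i => rfl⟩
  have hLd : ∀ q, 0 ≤ ∑ i, (pF q i : ℝ) * L i := by
    intro q
    have := h.wd.dom _ (hpos q)
    rw [inner_vc] at this
    simpa only [hL] using this
  have hYd : ∀ q, 0 ≤ ∑ i, (pF q i : ℝ) * Y i := by
    intro q
    have := h.ydom _ (hpos q)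
    rw [inner_vc] at this
    simpa only [hY] using this
  have hYint : ∀ q, ∃ k : ℤ, ∑ i, (pF q i : ℝ) * Y i = k := by
    intro q
    obtain ⟨k, hk⟩ := h.inn.lev _ ((F.iff _).2 ⟨q, Or.inl rfl⟩)
    refine ⟨k, ?_⟩
    rw [real_inner_comm, inner_vc] at hk
    simpa only [hY] using hk
  have hLint : ∀ q (N : ℝ), (∑ i, (pF q i : ℝ) * pF q i) = N → ∃ k : ℤ, ∑ i, (pF q i : ℝ) * L i = k * N / 2 := by
    intro q N hN
    obtain ⟨k, hk⟩ := h.wd.sat.int _ ((F.iff _).2 ⟨q, Or.inl rfl⟩) l h.wd.l_mem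
    refine ⟨k, ?_⟩
    unfold co at hk
    have h1 : (inner ℝ (vc f (pF q)) (vc f (pF q)) : ℝ) = N := by
      rw [inner_vc, ← hN]
      refine Finset.sum_congr rfl fun i _ => ?_
      rw [real_inner_comm, inner_vc, Finset.sum_eq_single i]
      · rw [hon, if_pos rfl, mul_one]
      · intro j _ hj
        rw [hon, if_neg (Ne.symm hj), mul_zero]
      · intro h
        exact absurd (Finset.mem_univ i) h
    have h2 : (inner ℝ l (vc f (pF q)) : ℝ) = ∑ i, (pF q i : ℝ) * L i := by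
      rw [inner_vc]
      simp only [hL]
    have h3 : N ≠ 0 := by
      rw [← h1]
      exact (hRS.inner_pos ((F.iff _).2 ⟨q, Or.inl rfl⟩)).ne'
    rw [h1, h2] at hk
    field_simp at hk
    linarith
  have hly : L 0 * Y 0 + L 1 * Y 1 + L 2 * Y 2 + L 3 * Y 3 = 1 := by
    have := h.ly
    rw [hexp l hlsp y, Fin.sum_univ_four] at this
    simpa only [hL, hY] using this
  -- the inequalities
  have l1 := hLd 3
  have l2 := hLd 5
  have l3 := hLd 15
  have l0 := hLd 23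
  have y1 := hYd 3
  have y2 := hYd 5
  have y3 := hYd 15
  have y0 := hYd 23
  obtain ⟨a0, ha0⟩ := hLint 12 4 (by rw [Fin.sum_univ_four]; simp [pF]; norm_num)
  obtain ⟨a1, ha1⟩ := hLint 13 4 (by rw [Fin.sum_univ_four]; simp [pF]; norm_num)
  obtain ⟨a2, ha2⟩ := hLint 14 4 (by rw [Fin.sum_univ_four]; simp [pF]; norm_num)
  obtain ⟨a3, ha3⟩ := hLint 15 4 (by rw [Fin.sum_univ_four]; simp [pF]; norm_num)
  obtain ⟨a4, ha4⟩ := hLint 16 4 (by rw [Fin.sum_univ_four]; simp [pF]; norm_num)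
  obtain ⟨b0, hb0⟩ := hYint 12
  obtain ⟨b1, hb1⟩ := hYint 0
  obtain ⟨b2, hb2⟩ := hYint 3
  obtain ⟨b3, hb3⟩ := hYint 5
  rw [Fin.sum_univ_four] at l0 l1 l2 l3 y0 y1 y2 y3 ha0 ha1 ha2 ha3 ha4 hb0 hb1 hb2 hb3
  simp [pF] at l0 l1 l2 l3 y0 y1 y2 y3 ha0 ha1 ha2 ha3 ha4 hb0 hb1 hb2 hb3
  have e0 : L 0 = a0 := by linarith
  have e1 : L 1 = a1 := by linarith
  have e2 : L 2 = a2 := by linarith
  have e3 : L 3 = a3 := by linarith
  have i0 : a3 + a2 + a1 ≤ a0 := by
    have : ((a3 + a2 + a1 : ℤ) : ℝ) ≤ a0 := by push_cast; linarith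
    exact_mod_cast this
  have i1 : a2 ≤ a1 := by
    have : ((a2 : ℤ) : ℝ) ≤ a1 := by linarith
    exact_mod_cast this
  have i2 : a3 ≤ a2 := by
    have : ((a3 : ℤ) : ℝ) ≤ a2 := by linarith
    exact_mod_cast this
  have i3 : 0 ≤ a3 := by
    have : ((0 : ℤ) : ℝ) ≤ a3 := by push_cast; linarith
    exact_mod_cast this
  have i4 : a0 + a1 + a2 + a3 = 2 * a4 := by
    have : ((a0 + a1 + a2 + a3 : ℤ) : ℝ) = ((2 * a4 : ℤ) : ℝ) := by push_cast; linarith
    exact_mod_cast this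
  have r1 : (0 : ℝ) ≤ a1 := by exact_mod_cast (by omega : (0 : ℤ) ≤ a1)
  have r2 : (0 : ℝ) ≤ a2 := by exact_mod_cast (by omega : (0 : ℤ) ≤ a2)
  have r3 : (0 : ℝ) ≤ a3 := by exact_mod_cast i3
  have Y3 : 0 ≤ Y 3 := y3
  have Y2 : 0 ≤ Y 2 := by linarith
  have Y1 : 0 ≤ Y 1 := by linarith
  rw [e0, e1, e2, e3] at hly
  have m1 : 0 ≤ (a1 : ℝ) * Y 1 := mul_nonneg r1 Y1
  have m2 : 0 ≤ (a2 : ℝ) * Y 2 := mul_nonneg r2 Y2
  have m3 : 0 ≤ (a3 : ℝ) * Y 3 := mul_nonneg r3 Y3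
  have hb0' : 1 ≤ b0 := by
    by_contra hc
    push Not at hc
    have h1 : (b0 : ℝ) ≤ 0 := by exact_mod_cast (by omega : b0 ≤ 0)
    have h2 : Y 0 = 0 := by linarith
    have h3 : Y 1 = 0 := by linarith
    have h4 : Y 2 = 0 := by linarith
    have h5 : Y 3 = 0 := by linarith
    rw [h2, h3, h4, h5] at hly
    norm_num at hly
  have rb0 : (1 : ℝ) ≤ b0 := by exact_mod_cast hb0'
  have ha0' : 1 ≤ a0 := by
    by_contra hc
    push Not at hc
    have h0 : a0 = 0 := by omega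
    have h1 : a1 = 0 := by omega
    have h2 : a2 = 0 := by omega
    have h3 : a3 = 0 := by omega
    rw [h0, h1, h2, h3] at hly
    norm_num at hly
  have ha0'' : a0 = 1 := by
    by_contra hc
    have h2 : 2 ≤ a0 := by omega
    have h2r : (2 : ℝ) ≤ a0 := by exact_mod_cast h2
    have h3 : (a0 : ℝ) * Y 0 ≤ 1 := by linarith
    have h4 : 2 * Y 0 ≤ (a0 : ℝ) * Y 0 := mul_le_mul_of_nonneg_right h2r (by linarith)
    have h5 : Y 0 = 1 / 2 := by linarith
    have h6 : b1 = 0 := by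
      have h7 : ((b1 : ℤ) : ℝ) ≤ 1 / 2 := by linarith
      have h8 : (0 : ℝ) ≤ ((b1 : ℤ) : ℝ) := by linarith
      have h9 : b1 < 1 := by
        have : (b1 : ℝ) < ((1 : ℤ) : ℝ) := by push_cast; linarith
        exact_mod_cast this
      have h10 : 0 ≤ b1 := by exact_mod_cast h8
      omega
    rw [h6] at hb1
    have h7 : Y 1 = 1 / 2 := by
      push_cast at hb1
      linarith
    have h8 : b2 = 0 := by
      have h9 : ((b2 : ℤ) : ℝ) ≤ 1 / 2 := by linarith
      have h10 : (0 : ℝ) ≤ ((b2 : ℤ) : ℝ) := by linarith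
      have h11 : b2 < 1 := by
        have : (b2 : ℝ) < ((1 : ℤ) : ℝ) := by push_cast; linarith
        exact_mod_cast this
      have h12 : 0 ≤ b2 := by exact_mod_cast h10
      omega
    rw [h8] at hb2
    push_cast at hb2
    linarith
  have hall : a1 = 1 ∧ a2 = 0 ∧ a3 = 0 := by omega
  obtain ⟨ha1', ha2', ha3'⟩ := hall
  rw [ha0'', ha1', ha2', ha3'] at hly
  push_cast at hly
  have hY01 : Y 0 + Y 1 = 1 := by linarith
  have hb1' : b1 = 1 := by
    have h1 : ((b1 : ℤ) : ℝ) ≤ 1 := by linarith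
    have h2 : (0 : ℝ) ≤ ((b1 : ℤ) : ℝ) := by linarith
    have h3 : b1 ≤ 1 := by exact_mod_cast h1
    have h4 : 0 ≤ b1 := by exact_mod_cast h2
    by_contra hc
    have h5 : b1 = 0 := by omega
    rw [h5] at hb1
    push_cast at hb1
    have h6 : Y 1 = 1 / 2 := by linarith
    have h7 : Y 2 = 0 := by linarith
    have h8 : ((b2 : ℤ) : ℝ) = 1 / 2 := by linarith
    have h9 : ((2 * b2 : ℤ) : ℝ) = ((1 : ℤ) : ℝ) := by push_cast; linarith
    have h10 : 2 * b2 = 1 := by exact_mod_cast h9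
    omega
  rw [hb1'] at hb1
  push_cast at hb1
  have z0 : Y 0 = 1 := by linarith
  have z1 : Y 1 = 0 := by linarith
  have z2 : Y 2 = 0 := by linarith
  have z3 : Y 3 = 0 := by linarith
  have w0 : L 0 = 1 := by rw [e0, ha0'']; norm_num
  have w1 : L 1 = 1 := by rw [e1, ha1']; norm_num
  have w2 : L 2 = 0 := by rw [e2, ha2']; norm_num
  have w3 : L 3 = 0 := by rw [e3, ha3']; norm_num
  have hyy : (inner ℝ y y : ℝ) = 1 := by
    rw [hexp y h.inn.y_mem, Fin.sum_univ_four]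
    simp only [hY, z0, z1, z2, z3]
    norm_num
  have hll : (inner ℝ l l : ℝ) = 2 := by
    rw [hexp l hlsp, Fin.sum_univ_four]
    simp only [hL, w0, w1, w2, w3]
    norm_num
  have hlv : (inner ℝ l v : ℝ) = 22 := by
    rw [hexp l hlsp, Fin.sum_univ_four]
    simp only [hL, w0, w1, w2, w3, hvi]
    simp
    norm_num
  have hcas : cas Φ l = 24 := by
    rw [cas_dom hRS h.wd.reg h.wd.v_eq h.wd.dom, hll, hlv]
    norm_num
  have hid := h.inn.idt
  rw [hcas, hyy, hrank, hcard] at hid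
  -- the dimension
  have hdim := h.wd.dim
  rw [hprodPs, hprodPs] at hdim
  have p1 : ∀ q, (inner ℝ v (vc f (pF q)) : ℝ) = ((∑ i, pF q i * (![16, 6, 4, 2] : Fin 4 → ℤ) i : ℤ) : ℝ) := by
    intro q
    rw [inner_vc]
    push_cast
    exact Finset.sum_congr rfl fun i _ => by rw [hvi]
  have p2 : ∀ q, (inner ℝ ((2 : ℝ) • l + v) (vc f (pF q)) : ℝ) =
      ((∑ i, pF q i * (![18, 8, 4, 2] : Fin 4 → ℤ) i : ℤ) : ℝ) := by
    intro q
    rw [inner_vc]
    push_cast
    refine Finset.sum_congr rfl fun i _ => ?_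
    rw [inner_add_left, inner_smul_left, hvi, hL]
    simp only [conj_trivial]
    fin_cases i
    · simp only [Fin.zero_eta, w0]; norm_num
    · simp only [Fin.mk_one, w1]; norm_num
    · simp only [Fin.reduceFinMk, w2]; norm_num; left; rfl
    · simp only [Fin.reduceFinMk, w3]; norm_num; left; rfl
  simp only [p1, p2] at hdim
  rw [← Int.cast_prod, ← Int.cast_prod, pF_prod] at hdim
  have hP : (0 : ℝ) < ((∏ q, ∑ i, pF q i * (![16, 6, 4, 2] : Fin 4 → ℤ) i : ℤ) : ℝ) := by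
    exact_mod_cast Finset.prod_pos fun q _ => pF_pos q
  rw [Int.cast_mul] at hdim
  have hn : (n : ℝ) = 26 := by
    have := mul_right_cancel₀ hP.ne' hdim
    rw [this]
    norm_num
  have hn' : n = 26 := by exact_mod_cast hn
  refine ⟨?_, hn'⟩
  rw [hn] at hid
  push_cast at hid
  have hs : (s : ℝ) = 6 := by linarith
  exact_mod_cast hs

end

end LT
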