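import Pool.Agent.Helper98.LT.Frame

/-!
Project LT (MP_b8862a_ag), type `G_2`.
-/

set_option linter.unusedSectionVars false
set_option linter.unusedVariables false

open Module PF TF PW AG

namespace LT

section
variable {E : Type*} [NormedAddCommGroup E] [InnerProductSpace ℝ E] {Φ X : Finset E} {n s : ℕ} {l y v : E}

/-- the positive roots of `G_2` -/
def pG : Fin 6 → Fin 3 → ℤ :=
  ![![1, -1, 0], ![1, 0, -1], ![0, 1, -1], ![3, 0, 0], ![0, 3, 0], ![0, 0, -3]]

theorem pG_inj : Function.Injective fun q => fun j => 3 * pG q j - ∑ i, pG q i := by decide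

theorem pG_sub : ∀ i j : Fin 3, i ≠ j → ∃ q, dl i - dl j = pG q ∨ dl i - dl j = -pG q := by decide

theorem pG_three : ∀ i : Fin 3, ∃ q, dl i + dl i + dl i = pG q ∨ dl i + dl i + dl i = -pG q := by decide

theorem pG_cases : ∀ q, (∃ i j : Fin 3, i ≠ j ∧ pG q = dl i - dl j) ∨
    ∃ i : Fin 3, pG q = dl i + dl i + dl i ∨ pG q = -(dl i + dl i + dl i) := by decide

theorem pG_prod : ∏ q, (∑ i, pG q i * (![6, 2, -8] : Fin 3 → ℤ) i) =
    7 * ∏ q, (∑ i, pG q i * (![4, 2, -6] : Fin 3 → ℤ) i) := by decide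

theorem pG_pos : ∀ q, 0 < ∑ i, pG q i * (![4, 2, -6] : Fin 3 → ℤ) i := by decide

theorem TyG2.rf {e : Fin 3 → E} (h : RS Φ) (F : TyG2 Φ e) {b : E} (hb : b ∈ Φ) : TyG2 Φ fun i => LT.rf b (e i) where
  gram := by
    intro i j
    rw [inner_rf h hb]
    exact F.gram i j
  mem := by
    intro a
    have hb0 := h.ne_zero b hb
    rw [← rf_mem h hb, F.mem]
    have e1 : ∀ x : E, LT.rf b a = x ↔ a = LT.rf b x := fun x => rf_eq_iff hb0
    simp only [e1, map_sub, map_neg, LinearMap.map_smul]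

theorem TyG2.iff {e : Fin 3 → E} (F : TyG2 Φ e) (a : E) : a ∈ Φ ↔ ∃ q, a = vc e (pG q) ∨ a = -vc e (pG q) := by
  have hneg : ∀ z : Fin 3 → ℤ, (∃ q, z = pG q ∨ z = -pG q) → ∀ a, (a = vc e z ∨ a = -vc e z) →
      ∃ q, a = vc e (pG q) ∨ a = -vc e (pG q) := by
    rintro z ⟨q, rfl | rfl⟩ a (rfl | rfl)
    · exact ⟨q, Or.inl rfl⟩
    · exact ⟨q, Or.inr rfl⟩
    · exact ⟨q, Or.inr (vc_neg _ _)⟩
    · exact ⟨q, Or.inl (by rw [vc_neg, neg_neg])⟩
  have hsub : ∀ i j : Fin 3, vc e (dl i - dl j) = e i - e j := by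
    intro i j
    rw [sub_eq_add_neg, vc_add, vc_neg, vc_dl, vc_dl, sub_eq_add_neg]
  have hthree : ∀ i : Fin 3, vc e (dl i + dl i + dl i) = (3 : ℝ) • e i := by
    intro i
    rw [vc_add, vc_add, vc_dl]
    module
  rw [F.mem]
  constructor
  · rintro (⟨i, j, hij, rfl⟩ | ⟨i, rfl | rfl⟩)
    · exact hneg _ (pG_sub i j hij) _ (Or.inl (hsub i j).symm)
    · exact hneg _ (pG_three i) _ (Or.inl (hthree i).symm)
    · exact hneg _ (pG_three i) _ (Or.inr (by rw [hthree]))
  · rintro ⟨q, hq⟩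
    rcases pG_cases q with ⟨i, j, hij, h⟩ | ⟨i, h | h⟩
    · left
      rw [h, hsub] at hq
      rcases hq with hq | hq
      · exact ⟨i, j, hij, hq⟩
      · exact ⟨j, i, hij.symm, by rw [hq, neg_sub]⟩
    · right
      rw [h, hthree] at hq
      exact ⟨i, hq⟩
    · right
      rw [h, vc_neg, hthree, neg_neg] at hq
      exact ⟨i, hq.symm⟩

/-- BLOCK G2 -/
theorem typeG2 {u : Fin 3 → E} (h : Dt Φ X n s l y v) (F : TyG2 Φ u) : s = 2 ∧ n = 7 := by
  classical
  have hRS := h.wd.rs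
  obtain ⟨f, F, hf⟩ := exists_std hRS h.wd.reg (TyG2 Φ) (fun f hf b hb => hf.rf hRS hb) 3 three_ne_zero
    (fun f hf i => (hf.mem _).2 (Or.inr ⟨i, Or.inl rfl⟩)) ![2, 1, -3] F
  have hg := F.gram
  have hsum0 : f 0 + f 1 + f 2 = 0 := by
    have h1 : (inner ℝ (f 0 + f 1 + f 2) (f 0 + f 1 + f 2) : ℝ) = 0 := by
      simp only [inner_add_left, inner_add_right, hg]
      norm_num [Fin.ext_iff]
    exact inner_self_eq_zero.1 h1
  have hf2 : f 2 = -f 0 - f 1 := by
    have h1 : f 2 = (f 0 + f 1 + f 2) - f 0 - f 1 := by abel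
    rw [h1, hsum0]
    abel
  have hinn : ∀ (w : Fin 3 → ℤ) (j : Fin 3), (inner ℝ (f j) (vc f w) : ℝ) = (w j : ℝ) - ((∑ i, w i : ℤ) : ℝ) / 3 := by
    intro w j
    rw [inner_vc]
    simp only [hg, mul_sub]
    rw [Finset.sum_sub_distrib, ← Finset.sum_mul]
    simp only [mul_ite, mul_one, mul_zero, Finset.sum_ite_eq, Finset.mem_univ, if_true]
    push_cast
    ring
  -- the positive roots
  have hpos : ∀ q, vc f (pG q) ∈ Ps Φ v := by
    intro q
    have h1 : vc f (pG q) ∈ Φ := (F.iff _).2 ⟨q, Or.inl rfl⟩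
    refine mem_Ps.2 ⟨h1, hf _ h1 ?_⟩
    have h2 : (∑ j, (![2, 1, -3] : Fin 3 → ℝ) j • f j) = vc f ![2, 1, -3] := by
      unfold vc
      refine Finset.sum_congr rfl fun i _ => ?_
      fin_cases i <;> simp
    rw [h2, inner_vc]
    have h3 : ∀ i, (inner ℝ (vc f ![2, 1, -3]) (f i) : ℝ) = ((![2, 1, -3] : Fin 3 → ℤ) i : ℝ) := by
      intro i
      rw [real_inner_comm, hinn]
      have : ∑ i, (![2, 1, -3] : Fin 3 → ℤ) i = 0 := by decide
      rw [this]
      simp
    simp only [h3]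
    have h4 : ∀ q, 0 < ∑ i, pG q i * (![2, 1, -3] : Fin 3 → ℤ) i := by decide
    exact_mod_cast h4 q
  have hvcinj : Function.Injective fun q => vc f (pG q) := by
    intro q q' hqq
    apply pG_inj
    funext j
    simp only at hqq
    have h2 := hinn (pG q) j
    rw [hqq, hinn (pG q') j] at h2
    have h3 : ((3 * pG q j - ∑ i, pG q i : ℤ) : ℝ) = ((3 * pG q' j - ∑ i, pG q' i : ℤ) : ℝ) := by
      push_cast at h2 ⊢
      linarith
    exact_mod_cast h3
  have hPs : Ps Φ v = Finset.univ.image fun q => vc f (pG q) := by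
    ext a
    rw [Finset.mem_image]
    constructor
    · intro ha
      obtain ⟨ha1, ha2⟩ := mem_Ps.1 ha
      obtain ⟨q, rfl | rfl⟩ := (F.iff a).1 ha1
      · exact ⟨q, Finset.mem_univ _, rfl⟩
      · exfalso
        have := (mem_Ps.1 (hpos q)).2
        rw [inner_neg_right] at ha2
        linarith
    · rintro ⟨q, _, rfl⟩
      exact hpos q
  have hprodPs : ∀ G : E → ℝ, ∏ a ∈ Ps Φ v, G a = ∏ q, G (vc f (pG q)) := by
    intro G
    rw [hPs, Finset.prod_image (fun x _ y _ hxy => hvcinj hxy)]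
  -- the vector `v`
  have hv : v = vc f ![5, 3, -5] := by
    have h1 : ∑ q, pG q = ![5, 3, -5] := by decide
    rw [h.wd.v_eq, hPs, Finset.sum_image (fun x _ y _ hxy => hvcinj hxy), vc_sum, h1]
  have hvi : ∀ i, (inner ℝ v (f i) : ℝ) = ((![4, 2, -6] : Fin 3 → ℤ) i : ℝ) := by
    intro i
    rw [hv, real_inner_comm, hinn]
    have h1 : ∑ i, (![5, 3, -5] : Fin 3 → ℤ) i = 3 := by decide
    rw [h1]
    have h2 : ∀ i, (![5, 3, -5] : Fin 3 → ℤ) i = (![4, 2, -6] : Fin 3 → ℤ) i + 1 := by decide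
    rw [h2]
    push_cast
    ring
  -- coordinates
  have hspan : Submodule.span ℝ (Φ : Set E) = Submodule.span ℝ (Set.range f) := by
    apply le_antisymm
    · rw [Submodule.span_le]
      intro a ha
      obtain ⟨q, hq⟩ := (F.iff a).1 ha
      have h1 : vc f (pG q) ∈ Submodule.span ℝ (Set.range f) :=
        Submodule.sum_mem _ fun i _ => Submodule.smul_mem _ _ (Submodule.subset_span ⟨i, rfl⟩)
      rcases hq with rfl | rfl
      · exact h1
      · exact Submodule.neg_mem _ h1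
    · rw [Submodule.span_le]
      rintro _ ⟨i, rfl⟩
      have h1 : (3 : ℝ) • f i ∈ Φ := (F.mem _).2 (Or.inr ⟨i, Or.inl rfl⟩)
      have h2 : f i = (3 : ℝ)⁻¹ • (3 : ℝ) • f i := by
        rw [smul_smul, inv_mul_cancel₀ three_ne_zero, one_smul]
      rw [h2]
      exact Submodule.smul_mem _ _ (Submodule.subset_span h1)
  have hz : ∀ w : E, (inner ℝ w (f 0) : ℝ) + inner ℝ w (f 1) + inner ℝ w (f 2) = 0 := by
    intro w
    rw [← inner_add_right, ← inner_add_right, hsum0, inner_zero_right]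
  have hexp : ∀ x ∈ Submodule.span ℝ (Φ : Set E), ∀ w : E, (inner ℝ x w : ℝ) = inner ℝ x (f 0) * inner ℝ w (f 0) +
      inner ℝ x (f 1) * inner ℝ w (f 1) + inner ℝ x (f 2) * inner ℝ w (f 2) := by
    intro x hx w
    rw [hspan] at hx
    induction hx using Submodule.span_induction with
    | mem x hx =>
      obtain ⟨j, rfl⟩ := hx
      have := hz w
      rw [hg, hg, hg, real_inner_comm w (f j)]
      fin_cases j
      · simp
        linarith
      · simp
        linarith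
      · simp
        linarith
    | zero => simp
    | add x z _ _ h1 h2 =>
      rw [inner_add_left, h1, h2, inner_add_left, inner_add_left, inner_add_left]
      ring
    | smul c x _ h1 =>
      rw [inner_smul_left, h1, inner_smul_left, inner_smul_left, inner_smul_left]
      simp only [conj_trivial]
      ring
  have hrank : finrank ℝ (Submodule.span ℝ (Φ : Set E)) = 2 := by
    have h1 : Submodule.span ℝ (Set.range f) = Submodule.span ℝ (Set.range ![f 0, f 1]) := by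
      apply le_antisymm
      · rw [Submodule.span_le]
        rintro _ ⟨i, rfl⟩
        have k0 : f 0 ∈ Submodule.span ℝ (Set.range ![f 0, f 1]) := Submodule.subset_span ⟨0, rfl⟩
        have k1 : f 1 ∈ Submodule.span ℝ (Set.range ![f 0, f 1]) := Submodule.subset_span ⟨1, rfl⟩
        fin_cases i
        · exact k0
        · exact k1
        · show f 2 ∈ Submodule.span ℝ (Set.range ![f 0, f 1])
          rw [hf2]
          exact Submodule.sub_mem _ (Submodule.neg_mem _ k0) k1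
      · rw [Submodule.span_le]
        rintro _ ⟨i, rfl⟩
        fin_cases i
        · exact Submodule.subset_span ⟨0, rfl⟩
        · exact Submodule.subset_span ⟨1, rfl⟩
    have h2 : LinearIndependent ℝ ![f 0, f 1] := by
      rw [LinearIndependent.pair_iff]
      intro a b hab
      have e0 : (inner ℝ (a • f 0 + b • f 1) (f 0) : ℝ) = 0 := by rw [hab, inner_zero_left]
      have e1 : (inner ℝ (a • f 0 + b • f 1) (f 1) : ℝ) = 0 := by rw [hab, inner_zero_left]
      rw [inner_add_left, inner_smul_left, inner_smul_left, hg, hg] at e0 e1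
      simp at e0 e1
      constructor <;> linarith
    rw [hspan, h1, finrank_span_eq_card h2, Fintype.card_fin]
  have hcard : (Φ.card : ℝ) = 12 := by
    rw [card_Ps hRS h.wd.reg, hPs, Finset.card_image_of_injective _ hvcinj, Finset.card_univ, Fintype.card_fin]
    norm_num
  -- coordinates of `l` and `y`
  have hlsp : l ∈ Submodule.span ℝ (Φ : Set E) := by
    have h1 := h.wd.sat.coset l h.wd.l_mem (-l) (h.wd.sat.neg _ h.wd.l_mem)
    have h2 : l - -l ∈ Submodule.span ℝ (Φ : Set E) := by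
      refine (AddSubgroup.closure_le (K := (Submodule.span ℝ (Φ : Set E)).toAddSubgroup)).2 ?_ h1
      intro a ha
      exact Submodule.subset_span ha
    have h3 : l = (2 : ℝ)⁻¹ • (l - -l) := by
      rw [sub_neg_eq_add, ← two_smul ℝ l, smul_smul, inv_mul_cancel₀ two_ne_zero, one_smul]
    rw [h3]
    exact Submodule.smul_mem _ _ h2
  obtain ⟨L, hL⟩ : ∃ L : Fin 3 → ℝ, ∀ i, (inner ℝ l (f i) : ℝ) = L i := ⟨_, fun i => rfl⟩
  obtain ⟨Y, hY⟩ : ∃ Y : Fin 3 → ℝ, ∀ i, (inner ℝ y (f i) : ℝ) = Y i := ⟨_, fun i => rfl⟩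
  have hLd : ∀ q, 0 ≤ ∑ i, (pG q i : ℝ) * L i := by
    intro q
    have := h.wd.dom _ (hpos q)
    rw [inner_vc] at this
    simpa only [hL] using this
  have hYd : ∀ q, 0 ≤ ∑ i, (pG q i : ℝ) * Y i := by
    intro q
    have := h.ydom _ (hpos q)
    rw [inner_vc] at this
    simpa only [hY] using this
  have hYint : ∀ q, ∃ k : ℤ, ∑ i, (pG q i : ℝ) * Y i = k := by
    intro q
    obtain ⟨k, hk⟩ := h.inn.lev _ ((F.iff _).2 ⟨q, Or.inl rfl⟩)
    refine ⟨k, ?_⟩
    rw [real_inner_comm, inner_vc] at hk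
    simpa only [hY] using hk
  have hLint : ∀ i, ∃ k : ℤ, L i = k := by
    intro i
    obtain ⟨k, hk⟩ := h.wd.sat.int ((3 : ℝ) • f i) ((F.mem _).2 (Or.inr ⟨i, Or.inl rfl⟩)) l h.wd.l_mem
    refine ⟨k, ?_⟩
    unfold co at hk
    rw [inner_smul_right, inner_smul_left, inner_smul_right, hL, hg, if_pos rfl] at hk
    simp only [conj_trivial] at hk
    norm_num at hk
    linarith
  have hly : L 0 * Y 0 + L 1 * Y 1 + L 2 * Y 2 = 1 := by
    have := h.ly
    rw [hexp l hlsp y] at this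
    simpa only [hL, hY] using this
  have hL0 := hz l
  have hY0 := hz y
  rw [hL, hL, hL] at hL0
  rw [hY, hY, hY] at hY0
  obtain ⟨a0, e0⟩ := hLint 0
  obtain ⟨a1, e1⟩ := hLint 1
  have l0 := hLd 0
  have l1 := hLd 4
  have y0 := hYd 0
  have y1 := hYd 4
  obtain ⟨b, hb⟩ := hYint 0
  obtain ⟨b0, hb0⟩ := hYint 3
  rw [Fin.sum_univ_three] at l0 l1 y0 y1 hb hb0
  simp [pG] at l0 l1 y0 y1 hb hb0
  have e2 : L 2 = -a0 - a1 := by linarith
  have y2 : Y 2 = -Y 0 - Y 1 := by linarith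
  have i0 : a1 ≤ a0 := by
    have : ((a1 : ℤ) : ℝ) ≤ a0 := by linarith
    exact_mod_cast this
  have i1 : 0 ≤ a1 := by
    have : ((0 : ℤ) : ℝ) ≤ a1 := by push_cast; linarith
    exact_mod_cast this
  have r1 : (0 : ℝ) ≤ a1 := by exact_mod_cast i1
  have r0 : (0 : ℝ) ≤ a0 := by exact_mod_cast (by omega : 0 ≤ a0)
  have hY0' : 0 ≤ Y 0 := by linarith
  rw [e0, e1, e2, y2] at hly
  have ha0 : 1 ≤ a0 := by
    by_contra hc
    have h0 : a0 = 0 := by omega
    have h1 : a1 = 0 := by omega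
    rw [h0, h1] at hly
    norm_num at hly
  have ra0 : (1 : ℝ) ≤ a0 := by exact_mod_cast ha0
  have hb' : b = 0 := by
    have h1 : (0 : ℝ) ≤ ((b : ℤ) : ℝ) := by linarith
    have h2 : 0 ≤ b := by exact_mod_cast h1
    by_contra hc
    have h3 : 1 ≤ b := by omega
    have h4 : (1 : ℝ) ≤ b := by exact_mod_cast h3
    have h5 : 1 ≤ Y 0 := by linarith
    have m1 : 0 ≤ (a1 : ℝ) * Y 1 := mul_nonneg r1 y1
    have m2 : 0 ≤ (a1 : ℝ) * Y 0 := mul_nonneg r1 hY0'
    have m3 : 0 ≤ (a0 : ℝ) * Y 1 := mul_nonneg r0 y1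
    have m4 : 1 ≤ (a0 : ℝ) * Y 0 := by nlinarith
    nlinarith
  rw [hb'] at hb
  push_cast at hb
  have hY01 : Y 1 = Y 0 := by linarith
  have hkey : b0 * (a0 + a1) = 1 := by
    have h1 : ((b0 * (a0 + a1) : ℤ) : ℝ) = ((1 : ℤ) : ℝ) := by
      push_cast
      rw [← hb0]
      rw [hY01] at hly
      linear_combination hly
    exact_mod_cast h1
  have hb0' : b0 = 1 ∧ a0 + a1 = 1 := by
    rcases Int.eq_one_or_neg_one_of_mul_eq_one hkey with h1 | h1
    · rw [h1, one_mul] at hkey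
      exact ⟨h1, hkey⟩
    · exfalso
      rw [h1] at hkey
      omega
  obtain ⟨hb1, ha1⟩ := hb0'
  have ha0' : a0 = 1 := by omega
  have ha1' : a1 = 0 := by omega
  rw [hb1] at hb0
  push_cast at hb0
  have z0 : Y 0 = 1 / 3 := by linarith
  have z1 : Y 1 = 1 / 3 := by linarith
  have z2 : Y 2 = -(2 / 3) := by linarith
  have w0 : L 0 = 1 := by rw [e0, ha0']; norm_num
  have w1 : L 1 = 0 := by rw [e1, ha1']; norm_num
  have w2 : L 2 = -1 := by linarith
  have hyy : (inner ℝ y y : ℝ) = 2 / 3 := by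
    rw [hexp y h.inn.y_mem]
    simp only [hY, z0, z1, z2]
    norm_num
  have hll : (inner ℝ l l : ℝ) = 2 := by
    rw [hexp l hlsp]
    simp only [hL, w0, w1, w2]
    norm_num
  have hlv : (inner ℝ l v : ℝ) = 10 := by
    rw [hexp l hlsp]
    simp only [hL, w0, w1, w2, hvi]
    simp
    norm_num
  have hcas : cas Φ l = 12 := by
    rw [cas_dom hRS h.wd.reg h.wd.v_eq h.wd.dom, hll, hlv]
    norm_num
  have hid := h.inn.idt
  rw [hcas, hyy, hrank, hcard] at hid
  -- the dimension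
  have hdim := h.wd.dim
  rw [hprodPs, hprodPs] at hdim
  have p1 : ∀ q, (inner ℝ v (vc f (pG q)) : ℝ) = ((∑ i, pG q i * (![4, 2, -6] : Fin 3 → ℤ) i : ℤ) : ℝ) := by
    intro q
    rw [inner_vc]
    push_cast
    exact Finset.sum_congr rfl fun i _ => by rw [hvi]
  have p2 : ∀ q, (inner ℝ ((2 : ℝ) • l + v) (vc f (pG q)) : ℝ) =
      ((∑ i, pG q i * (![6, 2, -8] : Fin 3 → ℤ) i : ℤ) : ℝ) := by
    intro q
    rw [inner_vc]
    push_cast
    refine Finset.sum_congr rfl fun i _ => ?_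
    rw [inner_add_left, inner_smul_left, hvi, hL]
    simp only [conj_trivial]
    congr 1
    fin_cases i
    · simp [w0]; norm_num
    · simp [w1]
    · simp [w2]; norm_num
  simp only [p1, p2] at hdim
  rw [← Int.cast_prod, ← Int.cast_prod, pG_prod] at hdim
  have hP : (0 : ℝ) < ((∏ q, ∑ i, pG q i * (![4, 2, -6] : Fin 3 → ℤ) i : ℤ) : ℝ) := by
    exact_mod_cast Finset.prod_pos fun q _ => pG_pos q
  rw [Int.cast_mul] at hdim
  have hn : (n : ℝ) = 7 := by
    have := mul_right_cancel₀ hP.ne' hdim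
    rw [this]
    norm_num
  have hn' : n = 7 := by exact_mod_cast hn
  refine ⟨?_, hn'⟩
  rw [hn] at hid
  push_cast at hid
  have hs : (s : ℝ) = 2 := by linarith
  exact_mod_cast hs

end

end LT
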